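import Pool.Agent.H50.ODG.Targets

/-!
# Row KS3 of odg_modules: the splitting mirror with foot angle `2 π / 3`
-/

set_option autoImplicit false

namespace Pool.Agent.H54.ODG

open Pool.Agent.H57.CP Pool.Agent.H39.TO Pool.Agent.H39.OD Pool.Agent.H50.ODG

theorem cn_two_thirds : cn (2 / 3) = -(1 / 2) := by
  unfold cn
  have h : (((2 / 3 : ℚ) : ℝ) * Real.pi) = Real.pi - Real.pi / 3 := by
    push_cast
    ring
  rw [h, Real.cos_pi_sub, Real.cos_pi_div_three]

/-- the angle is determined by its cosine -/
theorem eq_of_cn {v : ℚ} (h0 : 0 < v) (h1 : v < 1) {t : ℝ} (ht0 : 0 ≤ t) (ht1 : t ≤ 1)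
    (h : cn v = Real.cos (t * Real.pi)) : (v : ℝ) = t := by
  have hv0 : (0 : ℝ) < v := by exact_mod_cast h0
  have hv1 : (v : ℝ) < 1 := by exact_mod_cast h1
  have hp := Real.pi_pos
  have ha : (v : ℝ) * Real.pi ∈ Set.Icc 0 Real.pi := ⟨by positivity, by nlinarith⟩
  have hb : t * Real.pi ∈ Set.Icc 0 Real.pi := ⟨by positivity, by nlinarith⟩
  have h2 := Real.injOn_cos ha hb h
  exact mul_right_cancel₀ hp.ne' h2

theorem pf_KS3 (hKN3 : T_KN3) (hKNS : T_KNS) (hKNL : T_KNL) : T_KS3 := by
  intro q k u v hk2 hkq hco h1 h2 hsum hrel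
  obtain ⟨hu, c, hc6, hc⟩ := hKN3 _ _ h1
  obtain ⟨hv0, hv1, -⟩ := hKNL _ _ _ (hKNS _ _ _ h2).2
  have hqc : q = c := by
    have h3 : ((1 : ℚ) / q) = 1 / c := by rw [hc]
    have h4 : (q : ℚ) = c := by
      have h5 := congrArg (fun x : ℚ => 1 / x) h3
      simpa using h5
    exact_mod_cast h4
  have hq6 : 6 ≤ q := by omega
  have hq0 : (0 : ℝ) < q := by
    have : 0 < q := by omega
    exact_mod_cast this
  have hpi := Real.pi_pos
  set θ : ℝ := Real.pi / q with hθ
  have hθ0 : 0 < θ := by positivity
  have hqR : (6 : ℝ) ≤ q := by exact_mod_cast hq6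
  have hθ6 : θ ≤ Real.pi / 6 := by
    rw [hθ]
    exact div_le_div_of_nonneg_left hpi.le (by norm_num) hqR
  have hqθ : (q : ℝ) * θ = Real.pi := by
    rw [hθ]
    field_simp
  have hs : 0 < Real.sin θ := Real.sin_pos_of_pos_of_lt_pi hθ0 (by linarith)
  have hcu : cn u = Real.cos θ := by
    unfold cn
    rw [← hu]
    congr 1
    push_cast
    rw [hθ]
    ring
  have hkt : (k : ℝ) * Real.pi / q = (k : ℝ) * θ := by rw [hθ]; ring
  have hkt1 : ((k : ℝ) - 1) * Real.pi / q = ((k : ℝ) - 1) * θ := by rw [hθ]; ring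
  rw [hkt, hkt1, cn_two_thirds, hcu] at hrel
  -- the relation
  have hrel2 : cn v * Real.sin θ = (1 / 2) * Real.sin (((k : ℝ) - 2) * θ) := by
    have e1 : (k : ℝ) * θ = ((k : ℝ) - 1) * θ + θ := by ring
    have e2 : ((k : ℝ) - 2) * θ = ((k : ℝ) - 1) * θ - θ := by ring
    rw [hrel, e1, e2, Real.sin_add, Real.sin_sub]
    ring
  rcases Nat.lt_or_ge k 5 with hk5 | hk5
  · have hk' : k = 2 ∨ k = 3 ∨ k = 4 := by omega
    rcases hk' with rfl | rfl | rfl
    · -- k = 2
      have h0 : cn v = 0 := by
        have : cn v * Real.sin θ = 0 := by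
          rw [hrel2]
          norm_num
        rcases mul_eq_zero.1 this with h | h
        · exact h
        · exact absurd h hs.ne'
      have hv : (v : ℝ) = 1 / 2 := by
        refine eq_of_cn hv0 hv1 (by norm_num) (by norm_num) ?_
        rw [h0, show (1 / 2 : ℝ) * Real.pi = Real.pi / 2 by ring, Real.cos_pi_div_two]
      have hvq : v = 1 / 2 := by
        have : ((v : ℚ) : ℝ) = ((1 / 2 : ℚ) : ℝ) := by rw [hv]; push_cast; ring
        exact_mod_cast this
      have hodd : Odd q := by
        rw [← Nat.not_even_iff_odd]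
        intro he
        have h4 : 2 ∣ q := he.two_dvd
        have h5 := Nat.Coprime.eq_one_of_dvd hco h4
        omega
      have hq7 : 7 ≤ q := by
        rcases hodd with ⟨a, ha⟩
        omega
      refine ⟨hsum, ?_⟩
      right; right; right; right; right
      right; right; left
      refine ⟨q, hodd, hq7, hvq, ?_, ?_⟩
      · rw [← hu]
      · push_cast
        rfl
    · -- k = 3
      have h0 : cn v = 1 / 2 := by
        have h3 : cn v * Real.sin θ = (1 / 2) * Real.sin θ := by
          rw [hrel2]
          congr 2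
          push_cast
          ring
        exact mul_right_cancel₀ hs.ne' h3
      have hv : (v : ℝ) = 1 / 3 := by
        refine eq_of_cn hv0 hv1 (by norm_num) (by norm_num) ?_
        rw [h0, show (1 / 3 : ℝ) * Real.pi = Real.pi / 3 by ring, Real.cos_pi_div_three]
      have hvq : v = 1 / 3 := by
        have : ((v : ℚ) : ℝ) = ((1 / 3 : ℚ) : ℝ) := by rw [hv]; push_cast; ring
        exact_mod_cast this
      have h3q : ¬ 3 ∣ q := by
        intro h4
        have h5 := Nat.Coprime.eq_one_of_dvd hco h4
        omega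
      have hq7 : 7 ≤ q := by
        by_contra hlt
        have : q = 6 := by omega
        exact h3q (by rw [this]; norm_num)
      refine ⟨hsum, ?_⟩
      right; right; right; right; right
      right; right; right; left
      refine ⟨q, h3q, hq7, hvq, ?_, ?_⟩
      · rw [← hu]
      · push_cast
        rfl
    · -- k = 4
      have h0 : cn v = Real.cos θ := by
        have h3 : cn v * Real.sin θ = Real.cos θ * Real.sin θ := by
          rw [hrel2, show (((4 : ℕ) : ℝ) - 2) * θ = 2 * θ by push_cast; ring, Real.sin_two_mul]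
          ring
        exact mul_right_cancel₀ hs.ne' h3
      have hv : (v : ℝ) = 1 / q := by
        refine eq_of_cn hv0 hv1 (by positivity) ?_ ?_
        · rw [div_le_one hq0]
          linarith
        · rw [h0, hθ]
          congr 1
          ring
      have hvq : v = 1 / q := by
        have : ((v : ℚ) : ℝ) = ((1 / q : ℚ) : ℝ) := by rw [hv]; push_cast; ring
        exact_mod_cast this
      have hodd : Odd q := by
        rw [← Nat.not_even_iff_odd]
        intro he
        have h4 : 2 ∣ q := he.two_dvd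
        have h6 : Nat.Coprime 2 q := Nat.Coprime.coprime_dvd_left (by norm_num) hco
        have h5 := Nat.Coprime.eq_one_of_dvd h6 h4
        omega
      have hq7 : 7 ≤ q := by
        rcases hodd with ⟨a, ha⟩
        omega
      refine ⟨hsum, ?_⟩
      left
      right; right; right; right; left
      refine ⟨q, hodd, hq7, ?_, ?_, hvq⟩
      · push_cast
        rfl
      · rw [← hu]
  · -- k ≥ 5
    exfalso
    have hkR : (5 : ℝ) ≤ k := by exact_mod_cast hk5
    have hkq' : (k : ℝ) ≤ q - 1 := by
      have : k + 1 ≤ q := by omega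
      have h3 : ((k + 1 : ℕ) : ℝ) ≤ q := by exact_mod_cast this
      push_cast at h3
      linarith
    have ha : 3 * θ ≤ ((k : ℝ) - 2) * θ := by nlinarith
    have hb : ((k : ℝ) - 2) * θ ≤ Real.pi - 3 * θ := by nlinarith
    have h3θ : 3 * θ ≤ Real.pi / 2 := by linarith
    have hsin : Real.sin (3 * θ) ≤ Real.sin (((k : ℝ) - 2) * θ) := by
      rcases le_total (((k : ℝ) - 2) * θ) (Real.pi / 2) with hle | hle
      · exact Real.sin_le_sin_of_le_of_le_pi_div_two (by linarith) hle ha
      · rw [← Real.sin_pi_sub (((k : ℝ) - 2) * θ)]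
        exact Real.sin_le_sin_of_le_of_le_pi_div_two (by linarith) (by linarith) (by linarith)
    have hcos2 : 1 / 2 ≤ Real.cos (2 * θ) := by
      rw [← Real.cos_pi_div_three]
      exact Real.cos_le_cos_of_nonneg_of_le_pi (by linarith) (by linarith) (by linarith)
    have h3s : 2 * Real.sin θ ≤ Real.sin (3 * θ) := by
      have e : Real.sin (3 * θ) = Real.sin θ * (1 + 2 * Real.cos (2 * θ)) := by
        rw [Real.sin_three_mul, Real.cos_two_mul]
        have := Real.sin_sq_add_cos_sq θ
        have h5 : Real.sin θ ^ 3 = Real.sin θ * (1 - Real.cos θ ^ 2) := by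
          rw [← this]
          ring
        rw [h5]
        ring
      rw [e]
      nlinarith
    have hcv : 1 ≤ cn v := by
      have h5 : 1 * Real.sin θ ≤ cn v * Real.sin θ := by
        rw [hrel2]
        linarith
      exact le_of_mul_le_mul_right h5 hs
    have hv0' : (0 : ℝ) < v := by exact_mod_cast hv0
    have hv1' : (v : ℝ) < 1 := by exact_mod_cast hv1
    have h6 : cn v < 1 := by
      unfold cn
      rw [← Real.cos_zero]
      exact Real.cos_lt_cos_of_nonneg_of_le_pi le_rfl (by nlinarith) (by positivity)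
    linarith

end Pool.Agent.H54.ODG
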