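import Pool.Agent.H50.ODG.Targets

/-!
# Row NC1 of odg_modules: the configuration of a polyhedron
-/

set_option autoImplicit false

namespace Pool.Agent.H54.ODG

open Pool.Agent.H57.CP Pool.Agent.H39.TO Pool.Agent.H39.OD Pool.Agent.H50.ODG

theorem nc1_mk_comm (x y : V4) : mk x y = mk y x := by
  unfold mk
  ring

theorem nc1_refl_apply (a x : V4) (i : Fin 4) : refl a x i = x i + 2 * mk a x * a i := rfl

theorem nc1_refl_neg (n : V4) : refl (-n) = refl n := by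
  refine LinearMap.ext fun x => ?_
  funext i
  rw [nc1_refl_apply, nc1_refl_apply]
  simp only [mk, Pi.neg_apply]
  ring

/-- a point which is fixed by the reflection is on the mirror -/
theorem nc1_mk_of_fix {n : V4} (hn : mk n n = -1) {x : V4} (h : refl n x = x) : mk x n = 0 := by
  have h2 : ∀ i, mk n x * n i = 0 := by
    intro i
    have h3 := congrFun h i
    rw [nc1_refl_apply] at h3
    linarith
  rw [nc1_mk_comm]
  by_contra hne
  have h3 : ∀ i, n i = 0 := fun i => (mul_eq_zero.1 (h2 i)).resolve_left hne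
  have h4 : mk n n = 0 := by
    unfold mk
    rw [h3 0, h3 1, h3 2, h3 3]
    ring
  rw [h4] at hn
  norm_num at hn

theorem nc1_fix_of_mk {n x : V4} (h : mk x n = 0) : refl n x = x := by
  funext i
  rw [nc1_refl_apply, nc1_mk_comm, h]
  ring

theorem nc1_sy_inv {K : Geo} {g : Equiv.Perm H3} (hg : Sy K g) : Sy K (Equiv.symm g) := by
  refine ⟨?_, ?_, ?_, ?_⟩
  · intro x y
    have h := hg.iso (Equiv.symm g x) (Equiv.symm g y)
    rw [Equiv.apply_symm_apply, Equiv.apply_symm_apply] at h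
    exact h.symm
  · intro x
    have h := hg.v (Equiv.symm g x)
    rw [Equiv.apply_symm_apply] at h
    exact h.symm
  · intro e
    have h := hg.e (Equiv.symm g '' e)
    have h2 : g '' (Equiv.symm g '' e) = e := by
      rw [Set.image_image]
      simp
    rw [h2] at h
    exact h.symm
  · intro f
    have h := hg.f (Set.image (Equiv.symm g) '' f)
    have h2 : Set.image g '' (Set.image (Equiv.symm g) '' f) = f := by
      rw [Set.image_image]
      have h3 : ∀ e : Set H3, g '' (Equiv.symm g '' e) = e := by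
        intro e
        rw [Set.image_image]
        simp
      simp only [h3, Set.image_id']
    rw [h2] at h
    exact h.symm

theorem pf_NC1 (hCL1 : T_CL1) (hD12A : T_D12A) (hSML : T_SML) (hQFI : T_QFI) (hR12 : T_R12) (hK12 : T_K12)
    (hP12 : T_P12) (hFXM : T_FXM) (hNSP : T_NSP) (hSGN : T_SGN) (hKNP : T_KNP) (hMTA : T_MTA) (hMTY : T_MTY)
    (hOR3 : T_OR3) (hODN : T_ODN) (hKSW : T_KSW) (hRFX : T_RFX) (hKNS : T_KNS) (hCFI : T_CFI) : T_NC1 := by
  intro K hK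
  obtain ⟨hO0, hI1, hI2⟩ := hCL1 K hK
  obtain ⟨x, x', f, a, b, c, q, q', m, hD, hq, hq'⟩ :=
    hD12A K hK.geo hK.two hO0 hI1 hI2 (hQFI K hK.geo hK.two) hK.fs
  have hodd : ∀ n : ℕ, (n : ℕ∞) ∈ DG K → Odd n ∧ 3 ≤ n := by
    intro n hn
    obtain ⟨k, hk, hkn⟩ := hK.dg _ hn
    have hkn2 : n = k := by exact_mod_cast hkn
    have h2 := (hSML K hK.geo).2.1 _ hn
    have h3 : 2 ≤ n := by exact_mod_cast h2
    subst hkn2
    refine ⟨hk, ?_⟩
    obtain ⟨t, ht⟩ := hk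
    omega
  obtain ⟨hqo, hq3⟩ := hodd q hq
  obtain ⟨hqo', hq3'⟩ := hodd q' hq'
  obtain ⟨n0, n1, n2, hu0, hu1, hu2, hra, hrb, hrc⟩ := hR12 K x x' f a b c q q' m hK.geo hD hqo hqo' hq3 hq3'
  have hKA := hK12 K x x' f a b c q q' m n0 n1 n2 hK.geo hD hu0 hu1 hu2 hra hrb hrc
  obtain ⟨hpro, hord, hord'⟩ := hP12 K x x' f a b c q q' m n0 n1 n2 hK.geo hD hu0 hu1 hu2 hra hrb hrc
  have hxV : x ∈ K.V := by
    rw [hD.eV]
    exact ⟨1, Subgroup.one_mem _, Or.inl rfl⟩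
  have hxV' : x' ∈ K.V := by
    rw [hD.eV]
    exact ⟨1, Subgroup.one_mem _, Or.inr rfl⟩
  -- the reflections and the generators agree on the vertices
  have hA : ∀ z ∈ K.V, rf n0 z = a z := by
    intro z hz
    apply Subtype.ext
    rw [(hRFX n0 hu0).1 z, hra z hz]
  have hB : ∀ z ∈ K.V, rf n1 z = b z := by
    intro z hz
    apply Subtype.ext
    rw [(hRFX n1 hu1).1 z, hrb z hz]
  have hpow : ∀ k : ℕ, ((rf n0 * rf n1) ^ k) x = ((a * b) ^ k) x ∧ ((a * b) ^ k) x ∈ K.V := by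
    intro k
    induction k with
    | zero => exact ⟨rfl, hxV⟩
    | succ k ih =>
      obtain ⟨ih1, ih2⟩ := ih
      have h1 : b (((a * b) ^ k) x) ∈ K.V := (hD.sb.v _).2 ih2
      have h2 : a (b (((a * b) ^ k) x)) ∈ K.V := (hD.sa.v _).2 h1
      have h3 : ((a * b) ^ (k + 1)) x = a (b (((a * b) ^ k) x)) := by
        rw [pow_succ']
        rfl
      have h4 : ((rf n0 * rf n1) ^ (k + 1)) x = rf n0 (rf n1 (((rf n0 * rf n1) ^ k) x)) := by
        rw [pow_succ']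
        rfl
      refine ⟨?_, ?_⟩
      · rw [h3, h4, ih1, hB _ ih2, hA _ h1]
      · rw [h3]
        exact h2
  have hfx : ((rf n0 * rf n1) ^ m) x = x := by
    rw [(hpow m).1]
    exact hD.o3 x hxV
  obtain ⟨z, hz0, hz1⟩ := hFXM n0 n1 m x hu0 hu1 hD.m0 hfx
  have hno : ¬ ∃ O : H3, mk O.1 n0 = 0 ∧ mk O.1 n1 = 0 ∧ mk O.1 n2 = 0 := by
    refine hNSP x x' n0 n1 n2 hu0 hu1 hu2 hpro ?_
    rw [← hKA]
    exact hK.inf
  -- products with the base points
  have hx0 : mk x.1 n0 = 0 := by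
    refine nc1_mk_of_fix hu0 ?_
    rw [hra x hxV, hD.av]
  have hx2 : mk x.1 n2 = 0 := by
    refine nc1_mk_of_fix hu2 ?_
    rw [hrc x hxV, hD.cv]
  have hx1' : mk x'.1 n1 = 0 := by
    refine nc1_mk_of_fix hu1 ?_
    rw [hrb x' hxV', hD.bv]
  have hx2' : mk x'.1 n2 = 0 := by
    refine nc1_mk_of_fix hu2 ?_
    rw [hrc x' hxV', hD.cv']
  have hx1 : mk x.1 n1 ≠ 0 := by
    intro h
    apply hD.bx
    apply Subtype.ext
    rw [← hrb x hxV, nc1_fix_of_mk h]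
  have hx0' : mk x'.1 n0 ≠ 0 := by
    intro h
    apply hD.ax
    apply Subtype.ext
    rw [← hra x' hxV', nc1_fix_of_mk h]
  obtain ⟨k0, k1, k2, hk0, hk1, hk2, hMT, hGam⟩ :=
    hSGN x x' z n0 n1 n2 hu0 hu1 hu2 hx0 hx2 hx1' hx2' hx1 hx0' hz0 hz1 hno
  have hprok : Proper (Gam k0 k1 k2) := by
    rw [hGam]
    exact hpro
  have hrefl : ∀ {k n : V4}, k = n ∨ k = -n → refl k = refl n := by
    intro k n h
    rcases h with rfl | rfl
    · rfl
    · exact nc1_refl_neg n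
  have hrfk : ∀ {k n : V4}, mk n n = -1 → k = n ∨ k = -n → rf k = rf n := by
    intro k n hn h
    rcases h with rfl | rfl
    · rfl
    · exact (hRFX n hn).2.2.2.2.1
  -- the angles
  obtain ⟨w, hw0, hw1, hw⟩ := hMTA _ _ _ _ _ _ _ hprok hMT
  have hMT2 := (hMTY _ _ _ _ _ _ _ hMT).2
  obtain ⟨u, hu0', hu1', hu⟩ := hMTA _ _ _ _ _ _ _ hprok hMT2
  have hMT3 := (hMTY _ _ _ _ _ _ _ (hMTY _ _ _ _ _ _ _ hMT).1).2
  obtain ⟨v, hv0, hv1, hv⟩ := hMTA _ _ _ _ _ _ _ hprok hMT3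
  have hKn : Kn w u v := hKNP _ _ _ _ _ _ _ hprok hMT w u v hw0 hw1 hu0' hu1' hv0 hv1 hw hu hv
  have hKn2 : Kn u v w := (hKNS _ _ _ (hKNS _ _ _ hKn).1).2
  have hdu : u.den = q := by
    have h1 := hOR3 k0 k2 u hMT.ux hMT.uz hu0' hu1' hu
    rw [hrefl hk0, hrefl hk2] at h1
    apply Nat.dvd_antisymm
    · exact (h1 q).1 ((hord q).2 dvd_rfl)
    · exact (hord u.den).1 ((h1 u.den).2 dvd_rfl)
  have hdv : v.den = q' := by
    have h1 := hOR3 k1 k2 v hMT.uy hMT.uz hv0 hv1 hv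
    rw [hrefl hk1, hrefl hk2] at h1
    apply Nat.dvd_antisymm
    · exact (h1 q').1 ((hord' q').2 dvd_rfl)
    · exact (hord' v.den).1 ((h1 v.den).2 dvd_rfl)
  have hKk : K = KA x x' (rf k0) (rf k1) (rf k2) := by
    rw [hrfk hu0 hk0, hrfk hu1 hk1, hrfk hu2 hk2]
    exact hKA
  have hCf : Cf u v w x x' k0 k1 k2 :=
    ⟨hMT.ux, hMT.uy, hMT.uz, hu, hv, hw, hMT.Qx, hMT.Qz, hMT.Ry, hMT.Rz, hMT.Qy, hMT.Rx⟩
  have hNo : NoO k0 k1 k2 := hMT.ns
  have hnx := hD.nx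
  rcases hODN u v w hKn2 (by rw [hdu]; exact hqo) (by rw [hdv]; exact hqo') with hF | hF
  · exact ⟨u, v, w, x, x', k0, k1, k2, hCf, hKk, hu0', hu1', hv0, hv1, hw0, hw1, hKn2.1, hF, hNo, hnx⟩
  · obtain ⟨-, -, hCf', -, hNoi⟩ := hCFI u v w x x' k0 k1 k2 hCf
    refine ⟨v, u, w, x', x, k1, k0, k2, hCf', ?_, hv0, hv1, hu0', hu1', hw0, hw1, ?_, hF, hNoi.1 hNo, ?_⟩
    · rw [hKk]
      exact hKSW _ _ _ _ _
    · have := hKn2.1
      linarith
    · rintro ⟨g, hg, hgx⟩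
      refine hnx ⟨Equiv.symm g, nc1_sy_inv hg, ?_⟩
      rw [← hgx, Equiv.symm_apply_apply]

end Pool.Agent.H54.ODG
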